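import Pool.Agent.Helper93.KS.St2

/-!
# Project KS, module TRF: sums over distinct primitive characters
-/

set_option autoImplicit false

namespace Pool.Agent.Helper7.KS

open Finset Filter Topology Pool.Agent.Helper93.KS
open Pool.Agent.Helper15.AB (SP StML)
open Pool.Agent.Helper9.TW (gm)
open Pool.Agent.Helper93.KP (gk vk tk rn gn TK qk StRTS)

/-- transport to an equal modulus -/
private theorem transport {a r : ℕ} (h : a = r) (χ : DirichletCharacter ℂ a) (hχ : χ.IsPrimitive) :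
    ∃ χ' : DirichletCharacter ℂ r, χ'.IsPrimitive ∧ ∀ k : ℕ, χ' (k : ZMod r) = χ (k : ZMod a) := by
  subst h
  exact ⟨χ, hχ, fun _ => rfl⟩

/-- TRF -/
theorem hTRF : StTRF := by
  classical
  intro E f hf ψ Q h1 h2 G hG
  have key : ∀ r ∈ Icc 1 Q, ∑ n ∈ E.filter (fun n => f n = r),
      G (fun k => ψ n (k : ZMod (f n))) ≤ SP G r := by
    intro r hr
    have hr0 : r ≠ 0 := by
      have := (mem_Icc.1 hr).1
      omega
    have ex : ∀ n ∈ E.filter (fun n => f n = r), ∃ χ : DirichletCharacter ℂ r, χ.IsPrimitive ∧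
        ∀ k : ℕ, χ (k : ZMod r) = ψ n (k : ZMod (f n)) := by
      intro n hn
      rw [mem_filter] at hn
      exact transport hn.2 (ψ n) (h1 n hn.1).1
    choose! χ hχ using ex
    have e1 : ∑ n ∈ E.filter (fun n => f n = r), G (fun k => ψ n (k : ZMod (f n))) =
        ∑ n ∈ E.filter (fun n => f n = r), G (fun k => (χ n) (k : ZMod r)) := by
      refine sum_congr rfl ?_
      intro n hn
      congr 1
      funext k
      exact ((hχ n hn).2 k).symm
    have inj : Set.InjOn χ (E.filter (fun n => f n = r) : Finset ℕ) := by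
      intro n hn n' hn' hnn
      by_contra hne
      have hn1 := (mem_filter.1 (mem_coe.1 hn)).1
      have hn2 := (mem_filter.1 (mem_coe.1 hn')).1
      obtain ⟨k, hk⟩ := h2 n hn1 n' hn2 hne
      apply hk
      rw [← (hχ n (mem_coe.1 hn)).2 k, ← (hχ n' (mem_coe.1 hn')).2 k, hnn]
    have e2 : ∑ n ∈ E.filter (fun n => f n = r), G (fun k => (χ n) (k : ZMod r)) =
        ∑ φ ∈ (E.filter (fun n => f n = r)).image χ, G (fun k => φ (k : ZMod r)) :=
      (sum_image (f := fun φ : DirichletCharacter ℂ r => G (fun k => φ (k : ZMod r))) inj).symm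
    rw [e1, e2]
    unfold SP
    rw [dif_neg hr0]
    refine sum_le_sum_of_subset_of_nonneg ?_ (fun _ _ _ => hG _)
    intro φ hφ
    obtain ⟨n, hn, rfl⟩ := mem_image.1 hφ
    rw [mem_filter]
    exact ⟨mem_univ _, (hχ n hn).1⟩
  have hmap : ∀ n ∈ E, f n ∈ Icc 1 Q := by
    intro n hn
    rw [mem_Icc]
    have h3 : f n ≠ 0 := (hf n).out
    exact ⟨by omega, (h1 n hn).2⟩
  calc ∑ n ∈ E, G (fun k => ψ n (k : ZMod (f n)))
      = ∑ r ∈ Icc 1 Q, ∑ n ∈ E.filter (fun n => f n = r), G (fun k => ψ n (k : ZMod (f n))) :=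
        (sum_fiberwise_of_maps_to hmap _).symm
    _ ≤ ∑ r ∈ Icc 1 Q, SP G r := sum_le_sum key

end Pool.Agent.Helper7.KS
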