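import Pool.Agent.Helper93.KS.St

/-!
# Project KS, module CS2: complete sums of products of character values, squarefree moduli
-/

set_option autoImplicit false

namespace Pool.Agent.Helper7.KS

open Finset Filter Topology Pool.Agent.Helper93.KS
open Pool.Agent.Helper15.AB (ee Kl StDB StMT)
open Pool.Agent.Helper9.TW (gm Qs fm StMER StC9)
open Pool.Agent.Helper18.TR (StLevel)
open Pool.Agent.Helper93.KP (gk vk tk rn gn TK qk StC8P StVLP StRTS StWEI)

private theorem ee_add (x y : ℝ) : ee (x + y) = ee x * ee y := by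
  unfold ee
  rw [← Complex.exp_add]
  congr 1
  push_cast
  ring

private theorem ee_int (k : ℤ) : ee (k : ℝ) = 1 := by
  unfold ee
  rw [Complex.exp_eq_one_iff]
  refine ⟨k, ?_⟩
  push_cast
  ring

private theorem ee_norm (x : ℝ) : ‖ee x‖ = 1 := by
  unfold ee
  have h : (2 * Real.pi * x * Complex.I : ℂ) = ((2 * Real.pi * x : ℝ) : ℂ) * Complex.I := by
    push_cast
    ring
  rw [h, Complex.norm_exp_ofReal_mul_I]

/-- `sx n p` depends on `n` modulo `p` only -/
private theorem sx_congr {n m p : ℕ} (h : n ≡ m [MOD p]) : sx n p = sx m p := by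
  have h0 : (n : ℤ) ≡ (m : ℤ) [ZMOD (p : ℤ)] := (Int.natCast_modEq_iff).2 h
  have h1 : ((p : ℤ) ∣ (n : ℤ) ^ 2 - 4) ↔ ((p : ℤ) ∣ (m : ℤ) ^ 2 - 4) := by
    have h2 : (n : ℤ) ^ 2 - 4 ≡ (m : ℤ) ^ 2 - 4 [ZMOD (p : ℤ)] := (h0.pow 2).sub_right 4
    exact h2.dvd_iff
  have h3 : rn n p = rn m p := by
    unfold rn
    congr 1
    refine filter_congr ?_
    intro r _
    have h4 : gk n (30 * r) ≡ gk m (30 * r) [ZMOD (p : ℤ)] := by
      unfold gk
      exact ((h0.mul_left _).sub_right _).sub_right _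
    exact h4.dvd_iff
  unfold sx
  rw [h3]
  by_cases h5 : (p : ℤ) ∣ (n : ℤ) ^ 2 - 4
  · rw [if_pos h5, if_pos (h1.1 h5)]
  · rw [if_neg h5, if_neg (fun h6 => h5 (h1.2 h6))]

/-- the Chinese remainder theorem for sums of periodic functions -/
private theorem crt_sum {a b : ℕ} (ha : 0 < a) (hb : 0 < b) (hab : Nat.Coprime a b) (F G : ℕ → ℂ)
    (hF : ∀ n, F (n % a) = F n) (hG : ∀ n, G (n % b) = G n) :
    ∑ n ∈ range (a * b), F n * G n = (∑ x ∈ range a, F x) * ∑ y ∈ range b, G y := by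
  rw [sum_mul_sum, ← sum_product']
  refine sum_bij' (fun n _ => (n % a, n % b))
    (fun x _ => ((Nat.chineseRemainder hab x.1 x.2 : ℕ))) ?_ ?_ ?_ ?_ ?_
  · intro n _
    rw [mem_product]
    exact ⟨mem_range.2 (Nat.mod_lt _ ha), mem_range.2 (Nat.mod_lt _ hb)⟩
  · intro x _
    exact mem_range.2 (Nat.chineseRemainder_lt_mul hab x.1 x.2 ha.ne' hb.ne')
  · intro n hn
    have h1 : n ≡ n % a [MOD a] := (Nat.mod_modEq n a).symm
    have h2 : n ≡ n % b [MOD b] := (Nat.mod_modEq n b).symm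
    have h3 := Nat.chineseRemainder_modEq_unique hab h1 h2
    have h4 : (Nat.chineseRemainder hab (n % a) (n % b) : ℕ) < a * b :=
      Nat.chineseRemainder_lt_mul hab _ _ ha.ne' hb.ne'
    exact (Nat.ModEq.eq_of_lt_of_lt h3 (mem_range.1 hn) h4).symm
  · rintro ⟨x, y⟩ hx
    rw [mem_product] at hx
    have h1 := (Nat.chineseRemainder hab x y).2
    have h2 : x < a := mem_range.1 hx.1
    have h3 : y < b := mem_range.1 hx.2
    have h4 : (Nat.chineseRemainder hab x y : ℕ) % a = x := by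
      have h5 := h1.1
      unfold Nat.ModEq at h5
      rw [h5, Nat.mod_eq_of_lt h2]
    have h6 : (Nat.chineseRemainder hab x y : ℕ) % b = y := by
      have h5 := h1.2
      unfold Nat.ModEq at h5
      rw [h5, Nat.mod_eq_of_lt h3]
    exact Prod.ext h4 h6
  · intro n _
    rw [hF, hG]

/-- splitting the additive character -/
private theorem split {a b : ℕ} (ha : 0 < a) (hb : 0 < b) (hab : Nat.Coprime a b) (h : ℤ) :
    ∃ h1 h2 : ℤ, ∀ n : ℕ, ee ((h : ℝ) * n / ((a * b : ℕ) : ℝ)) =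
      ee ((h1 : ℝ) * n / (a : ℝ)) * ee ((h2 : ℝ) * n / (b : ℝ)) := by
  have hc : IsCoprime (a : ℤ) (b : ℤ) := Nat.isCoprime_iff_coprime.2 hab
  obtain ⟨u, v, huv⟩ := hc
  refine ⟨h * v, h * u, ?_⟩
  intro n
  rw [← ee_add]
  congr 1
  have ha' : (a : ℝ) ≠ 0 := by exact_mod_cast ha.ne'
  have hb' : (b : ℝ) ≠ 0 := by exact_mod_cast hb.ne'
  have huv' : (u : ℝ) * a + v * b = 1 := by exact_mod_cast huv
  push_cast
  field_simp
  linear_combination (-(h : ℝ) * n) * huv'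

private theorem ee_mod {a : ℕ} (ha : 0 < a) (h : ℤ) (n : ℕ) :
    ee ((h : ℝ) * ((n % a : ℕ) : ℝ) / (a : ℝ)) = ee ((h : ℝ) * (n : ℝ) / (a : ℝ)) := by
  have ha' : (a : ℝ) ≠ 0 := by exact_mod_cast ha.ne'
  have h1 : (n : ℝ) = (a : ℝ) * ((n / a : ℕ) : ℝ) + ((n % a : ℕ) : ℝ) := by
    exact_mod_cast (Nat.div_add_mod n a).symm
  have h2 : (h : ℝ) * (n : ℝ) / (a : ℝ) = (h : ℝ) * ((n % a : ℕ) : ℝ) / (a : ℝ) +
      ((h * ((n / a : ℕ) : ℤ) : ℤ) : ℝ) := by
    rw [Int.cast_mul, Int.cast_natCast]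
    rw [eq_comm, ← sub_eq_zero]
    have h3 : (h : ℝ) * ((n % a : ℕ) : ℝ) / (a : ℝ) + (h : ℝ) * ((n / a : ℕ) : ℝ) -
        (h : ℝ) * (n : ℝ) / (a : ℝ) = (h : ℝ) * ((a : ℝ) * ((n / a : ℕ) : ℝ) + ((n % a : ℕ) : ℝ) -
        (n : ℝ)) / (a : ℝ) := by
      field_simp
      ring
    rw [h3, ← h1, sub_self, mul_zero, zero_div]
  rw [h2, ee_add, ee_int, mul_one]

/-- CS2 -/
theorem hCS2 (hC : StCS1) : StCS2 := by
  classical
  intro S
  induction S using Finset.induction_on with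
  | empty =>
    intro h _
    rw [prod_empty, card_empty, pow_zero, one_mul, Nat.cast_one, Real.sqrt_one, range_one,
      sum_singleton, prod_empty]
    rw [Complex.ofReal_one, one_mul, ee_norm]
  | insert p S hpS ih =>
    intro h hS
    have hp := hS p (mem_insert_self p S)
    have hS' : ∀ l ∈ S, l.Prime ∧ 7 ≤ l := fun l hl => hS l (mem_insert_of_mem hl)
    have ha : 0 < p := hp.1.pos
    have hb : 0 < ∏ l ∈ S, l := prod_pos (fun l hl => (hS' l hl).1.pos)
    have hab : Nat.Coprime p (∏ l ∈ S, l) := by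
      refine Nat.Coprime.prod_right ?_
      intro l hl
      refine (Nat.coprime_primes hp.1 (hS' l hl).1).2 ?_
      intro h1
      rw [h1] at hpS
      exact hpS hl
    obtain ⟨h1, h2, h3⟩ := split ha hb hab h
    rw [prod_insert hpS, card_insert_of_notMem hpS]
    have h4 : ∑ n ∈ range (p * ∏ l ∈ S, l), ((∏ l ∈ insert p S, sx n l : ℝ) : ℂ) *
        ee ((h : ℝ) * n / ((p * ∏ l ∈ S, l : ℕ) : ℝ)) =
        (∑ x ∈ range p, (sx x p : ℂ) * ee ((h1 : ℝ) * x / (p : ℝ))) *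
        ∑ y ∈ range (∏ l ∈ S, l), ((∏ l ∈ S, sx y l : ℝ) : ℂ) *
          ee ((h2 : ℝ) * y / ((∏ l ∈ S, l : ℕ) : ℝ)) := by
      rw [← crt_sum ha hb hab]
      · refine sum_congr rfl ?_
        intro n _
        rw [h3 n, prod_insert hpS, Complex.ofReal_mul]
        ring
      · intro n
        rw [ee_mod ha, sx_congr (Nat.mod_modEq n p)]
      · intro n
        rw [ee_mod hb]
        congr 2
        refine prod_congr rfl ?_
        intro l hl
        exact sx_congr ((Nat.mod_modEq n _).of_dvd (dvd_prod_of_mem (fun l => l) hl))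
    rw [h4, norm_mul]
    have h5 := hC p h1 hp.1 hp.2
    have h6 := ih h2 hS'
    calc _ ≤ (4 * √(p : ℝ)) * (4 ^ S.card * √((∏ l ∈ S, l : ℕ) : ℝ)) :=
          mul_le_mul h5 h6 (norm_nonneg _) (by positivity)
      _ = 4 ^ (S.card + 1) * √((p * ∏ l ∈ S, l : ℕ) : ℝ) := by
          rw [Nat.cast_mul, Real.sqrt_mul (Nat.cast_nonneg p), pow_succ]
          ring

end Pool.Agent.Helper7.KS
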